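import Pool.Agent.Y292.KS.Stm

/-!
# Project KS: children of a cell (job KS-CH)
-/

set_option autoImplicit false

namespace Pool.Agent.Y569.KS

open Pool.Agent.Y292.KS Set

theorem pos_lower {ι : Type} (S : Finset ι) (f : ι → ℝ) (h : ∀ p ∈ S, 0 < f p) :
    ∃ δ : ℝ, 0 < δ ∧ ∀ p ∈ S, δ ≤ f p := by
  by_cases hS : S.Nonempty
  · obtain ⟨p, hp, hmin⟩ := S.exists_min_image f hS
    exact ⟨f p, h p hp, hmin⟩
  · rw [Finset.not_nonempty_iff_eq_empty] at hS
    subst hS
    exact ⟨1, one_pos, by simp⟩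

theorem quad_finite (a b c : ℝ) (ha : a ≠ 0) : {x : ℝ | a * x ^ 2 + b * x + c = 0}.Finite := by
  have hp : (Polynomial.C a * Polynomial.X ^ 2 + Polynomial.C b * Polynomial.X +
      Polynomial.C c : Polynomial ℝ) ≠ 0 := by
    intro h
    have h2 := Polynomial.natDegree_quadratic (b := b) (c := c) ha
    rw [h] at h2
    simp at h2
  refine (Polynomial.finite_setOfPred_isRoot hp).subset ?_
  intro x hx
  show Polynomial.eval x _ = 0
  simp only [Polynomial.eval_add, Polynomial.eval_mul, Polynomial.eval_C, Polynomial.eval_pow,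
    Polynomial.eval_X]
  exact hx

/-- the points -/
noncomputable def pt {m N : ℕ} (e0 e1 : Fin m) (x v θ : ℝ)
    (idx : (Fin m → Fin N) × (Fin m → Fin N) → ℝ) (p : (Fin m → Fin N) × (Fin m → Fin N)) :
    V m × V m :=
  (fun l => x * ((p.1 l : ℕ) : ℝ) + (if l = e1 then θ * idx p else 0),
    fun l => v * ((p.2 l : ℕ) : ℝ) + (if l = e0 then θ * idx p else 0))

theorem count_aux (m : ℕ) (κ ε : ℝ) (hκ : 0 < κ) (hε : 0 < ε) :
    ∃ N : ℕ, 1 ≤ N ∧ κ / N ≤ ε ∧ (κ / N) ^ (-(2 * (m : ℝ) - ε)) ≤ ((N ^ m * N ^ m : ℕ) : ℝ) := by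
  have h1 : ∀ᶠ N : ℕ in Filter.atTop, κ ^ (-(2 * (m : ℝ) - ε)) ≤ (N : ℝ) ^ ε :=
    ((tendsto_rpow_atTop hε).comp tendsto_natCast_atTop_atTop).eventually_ge_atTop _
  have h2 : ∀ᶠ N : ℕ in Filter.atTop, κ / ε ≤ (N : ℝ) :=
    tendsto_natCast_atTop_atTop.eventually_ge_atTop _
  obtain ⟨N, hN1, hN2, hN3⟩ := (h1.and (h2.and (Filter.eventually_ge_atTop 1))).exists
  have hNpos : (0 : ℝ) < N := by exact_mod_cast hN3
  refine ⟨N, hN3, ?_, ?_⟩
  · rw [div_le_iff₀ hNpos]
    rw [div_le_iff₀ hε] at hN2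
    linarith
  · rw [Real.div_rpow hκ.le hNpos.le]
    rw [div_le_iff₀ (Real.rpow_pos_of_pos hNpos _)]
    have h3 : ((N ^ m * N ^ m : ℕ) : ℝ) = (N : ℝ) ^ (2 * (m : ℝ)) := by
      push_cast
      rw [← pow_add, ← Real.rpow_natCast]
      congr 1
      push_cast
      ring
    rw [h3, ← Real.rpow_add hNpos]
    have h4 : 2 * (m : ℝ) + -(2 * (m : ℝ) - ε) = ε := by ring
    rw [h4]
    exact hN1

theorem grid_diff {N : ℕ} (i j : Fin N) (hij : i ≠ j) (x s : ℝ) (hx : 0 < x) :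
    x - |s| ≤ |x * ((i : ℕ) : ℝ) - x * ((j : ℕ) : ℝ) + s| := by
  have h1 : (1 : ℝ) ≤ |((i : ℕ) : ℝ) - ((j : ℕ) : ℝ)| := by
    have h2 : (i : ℕ) ≠ (j : ℕ) := fun h => hij (Fin.ext h)
    have h3 : (1 : ℤ) ≤ |((i : ℕ) : ℤ) - ((j : ℕ) : ℤ)| := by
      apply Int.one_le_abs
      rw [sub_ne_zero]
      exact_mod_cast h2
    exact_mod_cast h3
  have h4 : |x * ((i : ℕ) : ℝ) - x * ((j : ℕ) : ℝ)| = x * |((i : ℕ) : ℝ) - ((j : ℕ) : ℝ)| := by
    rw [← mul_sub, abs_mul, abs_of_pos hx]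
  have h5 : |x * ((i : ℕ) : ℝ) - x * ((j : ℕ) : ℝ)| ≤
      |x * ((i : ℕ) : ℝ) - x * ((j : ℕ) : ℝ) + s| + |s| := by
    have := abs_sub (x * ((i : ℕ) : ℝ) - x * ((j : ℕ) : ℝ) + s) s
    rwa [add_sub_cancel_right] at this
  rw [h4] at h5
  nlinarith

theorem t_CH : S_CH := by
  classical
  intro m hm T β ε hT hβ hβ1 hε
  set κ : ℝ := β / (256 * T) with hκ
  have hκ0 : 0 < κ := by rw [hκ]; positivity
  obtain ⟨N, hN1, hNε, hcount⟩ := count_aux m κ ε hκ0 hε
  have hNpos : (0 : ℝ) < N := by exact_mod_cast hN1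
  have hN1' : (1 : ℝ) ≤ N := by exact_mod_cast hN1
  set r : ℝ := κ / N with hr
  have hr0 : 0 < r := by rw [hr]; positivity
  let I : Type := (Fin m → Fin N) × (Fin m → Fin N)
  let e0 : Fin m := ⟨0, by omega⟩
  let e1 : Fin m := ⟨1, by omega⟩
  have he : e0 ≠ e1 := by
    intro h
    have := congrArg Fin.val h
    simp [e0, e1] at this
  let x : ℝ := β / (4 * N)
  let v : ℝ := β / (128 * T * N)
  have hx0 : 0 < x := by positivity
  have hv0 : 0 < v := by positivity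
  have hv2 : v = 2 * r := by
    show β / (128 * T * N) = 2 * (β / (256 * T) / N)
    field_simp
    norm_num
  have hx2 : 2 * r ≤ x := by
    rw [← hv2]
    show β / (128 * T * N) ≤ β / (4 * N)
    apply div_le_div_of_nonneg_left hβ.le (by positivity)
    nlinarith
  let M : ℕ := Fintype.card I
  let eqv : I ≃ Fin M := Fintype.equivFin I
  let idx : I → ℝ := fun p => ((eqv p : ℕ) : ℝ)
  have hidx0 : ∀ p, 0 ≤ idx p := fun p => Nat.cast_nonneg _
  have hidxM : ∀ p, idx p ≤ M := fun p => by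
    show ((eqv p : ℕ) : ℝ) ≤ (M : ℝ)
    exact_mod_cast (eqv p).2.le
  have hidxne : ∀ p q, p ≠ q → idx p - idx q ≠ 0 := by
    intro p q hpq h
    apply hpq
    apply eqv.injective
    apply Fin.ext
    have h2 : ((eqv p : ℕ) : ℝ) = ((eqv q : ℕ) : ℝ) := sub_eq_zero.1 h
    exact_mod_cast h2
  have hidxd : ∀ p q, |idx p - idx q| ≤ M := by
    intro p q
    rw [abs_le]
    constructor
    · linarith [hidx0 p, hidxM q]
    · linarith [hidx0 q, hidxM p]
  have hMpos : (0 : ℝ) < M := by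
    have : 0 < M := Fintype.card_pos_iff.2 ⟨(fun _ => ⟨0, by omega⟩, fun _ => ⟨0, by omega⟩)⟩
    exact_mod_cast this
  -- bad values
  let D0 : I → I → ℝ → ℝ := fun p q θ =>
    (-(idx p - idx q) ^ 2) * θ ^ 2 + (-(idx p - idx q) * ((x * ((p.1 e1 : ℕ) : ℝ) -
      x * ((q.1 e1 : ℕ) : ℝ)) + (v * ((p.2 e0 : ℕ) : ℝ) - v * ((q.2 e0 : ℕ) : ℝ)))) * θ +
    ((x * ((p.1 e0 : ℕ) : ℝ) - x * ((q.1 e0 : ℕ) : ℝ)) *
      (v * ((p.2 e1 : ℕ) : ℝ) - v * ((q.2 e1 : ℕ) : ℝ)) -
     (x * ((p.1 e1 : ℕ) : ℝ) - x * ((q.1 e1 : ℕ) : ℝ)) *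
      (v * ((p.2 e0 : ℕ) : ℝ) - v * ((q.2 e0 : ℕ) : ℝ)))
  let bad : Set ℝ := ⋃ z : I × I, {θ : ℝ | z.1 ≠ z.2 ∧ (D0 z.1 z.2 θ = 0 ∨
    (v * ((z.1.2 e0 : ℕ) : ℝ) - v * ((z.2.2 e0 : ℕ) : ℝ)) + θ * (idx z.1 - idx z.2) = 0)}
  have hbad : bad.Finite := by
    apply Set.finite_iUnion
    rintro ⟨p, q⟩
    by_cases hpq : p = q
    · convert Set.finite_empty (α := ℝ)
      ext θ
      simp [hpq]
    · have hc := hidxne p q hpq
      have h1 : {θ : ℝ | D0 p q θ = 0}.Finite := by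
        apply quad_finite
        rw [neg_ne_zero]
        exact pow_ne_zero 2 hc
      have h2 : {θ : ℝ | (v * ((p.2 e0 : ℕ) : ℝ) - v * ((q.2 e0 : ℕ) : ℝ)) +
          θ * (idx p - idx q) = 0}.Finite := by
        apply (Set.finite_singleton
          (-(v * ((p.2 e0 : ℕ) : ℝ) - v * ((q.2 e0 : ℕ) : ℝ)) / (idx p - idx q))).subset
        intro θ hθ
        have hθ' : (v * ((p.2 e0 : ℕ) : ℝ) - v * ((q.2 e0 : ℕ) : ℝ)) +
          θ * (idx p - idx q) = 0 := hθ
        rw [Set.mem_singleton_iff, eq_div_iff hc]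
        linarith
      apply (h1.union h2).subset
      rintro θ ⟨_, h | h⟩
      · exact Or.inl h
      · exact Or.inr h
  obtain ⟨θ, ⟨hθ0, hθ1⟩, hθbad⟩ : ∃ θ, θ ∈ Ioo (0 : ℝ) (r / M) ∧ θ ∉ bad := by
    have hinf : (Ioo (0 : ℝ) (r / M)).Infinite := Set.Ioo_infinite (by positivity)
    obtain ⟨θ, h1, h2⟩ := (hinf.sdiff hbad).nonempty
    exact ⟨θ, h1, h2⟩
  have hθM : θ * M ≤ r := by
    rw [lt_div_iff₀ hMpos] at hθ1
    exact hθ1.le
  have hθidx : ∀ p, θ * idx p ≤ r := fun p =>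
    (mul_le_mul_of_nonneg_left (hidxM p) hθ0.le).trans hθM
  have hθidx0 : ∀ p, 0 ≤ θ * idx p := fun p => mul_nonneg hθ0.le (hidx0 p)
  have hθd : ∀ p q, |θ * idx p - θ * idx q| ≤ r := by
    intro p q
    rw [← mul_sub, abs_mul, abs_of_pos hθ0]
    exact (mul_le_mul_of_nonneg_left (hidxd p q) hθ0.le).trans hθM
  let a : I → V m × V m := pt e0 e1 x v θ idx
  have ha1 : ∀ p l, (a p).1 l = x * ((p.1 l : ℕ) : ℝ) + (if l = e1 then θ * idx p else 0) :=
    fun p l => rfl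
  have ha2 : ∀ p l, (a p).2 l = v * ((p.2 l : ℕ) : ℝ) + (if l = e0 then θ * idx p else 0) :=
    fun p l => rfl
  -- distances
  have hdist : ∀ p q, p ≠ q → r ≤ dist (a p) (a q) := by
    intro p q hpq
    have hcase : (∃ l, p.1 l ≠ q.1 l) ∨ (∃ l, p.2 l ≠ q.2 l) := by
      by_contra hcon
      push Not at hcon
      exact hpq (Prod.ext (funext hcon.1) (funext hcon.2))
    rcases hcase with ⟨l, hl⟩ | ⟨l, hl⟩
    · have h1 : |(a p).1 l - (a q).1 l| ≤ dist (a p) (a q) := by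
        rw [Prod.dist_eq]
        refine le_trans ?_ (le_max_left _ _)
        exact dist_le_pi_dist (a p).1 (a q).1 l
      refine le_trans ?_ h1
      rw [ha1, ha1]
      have h2 : x * ((p.1 l : ℕ) : ℝ) + (if l = e1 then θ * idx p else 0) -
          (x * ((q.1 l : ℕ) : ℝ) + (if l = e1 then θ * idx q else 0)) =
          x * ((p.1 l : ℕ) : ℝ) - x * ((q.1 l : ℕ) : ℝ) +
            ((if l = e1 then θ * idx p else 0) - (if l = e1 then θ * idx q else 0)) := by ring
      rw [h2]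
      refine le_trans ?_ (grid_diff (p.1 l) (q.1 l) hl x _ hx0)
      have h3 : |(if l = e1 then θ * idx p else 0) - (if l = e1 then θ * idx q else 0)| ≤ r := by
        split_ifs
        · exact hθd p q
        · simp [hr0.le]
      linarith
    · have h1 : |(a p).2 l - (a q).2 l| ≤ dist (a p) (a q) := by
        rw [Prod.dist_eq]
        refine le_trans ?_ (le_max_right _ _)
        exact dist_le_pi_dist (a p).2 (a q).2 l
      refine le_trans ?_ h1
      rw [ha2, ha2]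
      have h2 : v * ((p.2 l : ℕ) : ℝ) + (if l = e0 then θ * idx p else 0) -
          (v * ((q.2 l : ℕ) : ℝ) + (if l = e0 then θ * idx q else 0)) =
          v * ((p.2 l : ℕ) : ℝ) - v * ((q.2 l : ℕ) : ℝ) +
            ((if l = e0 then θ * idx p else 0) - (if l = e0 then θ * idx q else 0)) := by ring
      rw [h2]
      refine le_trans ?_ (grid_diff (p.2 l) (q.2 l) hl v _ hv0)
      have h3 : |(if l = e0 then θ * idx p else 0) - (if l = e0 then θ * idx q else 0)| ≤ r := by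
        split_ifs
        · exact hθd p q
        · simp [hr0.le]
      linarith
  have hinj : Function.Injective a := by
    intro p q hpq
    by_contra hne
    have := hdist p q hne
    rw [hpq, dist_self] at this
    linarith
  -- sizes
  have hrho : rho T β / 2 = β / (64 * T) := by
    unfold rho
    field_simp
    norm_num
  have hrle : r ≤ β / (256 * T) := by
    rw [hr, hκ]
    exact div_le_self (by positivity) hN1'
  have hTdiv : β / (256 * T) ≤ β / 256 := by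
    apply div_le_div_of_nonneg_left hβ.le (by norm_num)
    linarith
  have hbox1 : ∀ p l, 0 ≤ (a p).1 l ∧ (a p).1 l ≤ β / 2 := by
    intro p l
    rw [ha1]
    have h1 : x * ((p.1 l : ℕ) : ℝ) ≤ β / 4 := by
      have : ((p.1 l : ℕ) : ℝ) ≤ N := by exact_mod_cast (p.1 l).2.le
      calc x * ((p.1 l : ℕ) : ℝ) ≤ x * N := mul_le_mul_of_nonneg_left this hx0.le
        _ = β / 4 := by
          show β / (4 * N) * N = β / 4
          field_simp
    have h2 : 0 ≤ x * ((p.1 l : ℕ) : ℝ) := by positivity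
    constructor
    · split_ifs
      · linarith [hθidx0 p]
      · linarith
    · split_ifs
      · linarith [hθidx p]
      · linarith
  have hbox2 : ∀ p l, |(a p).2 l| ≤ β / (64 * T) := by
    intro p l
    rw [ha2]
    have h1 : v * ((p.2 l : ℕ) : ℝ) ≤ β / (128 * T) := by
      have : ((p.2 l : ℕ) : ℝ) ≤ N := by exact_mod_cast (p.2 l).2.le
      calc v * ((p.2 l : ℕ) : ℝ) ≤ v * N := mul_le_mul_of_nonneg_left this hv0.le
        _ = β / (128 * T) := by
          show β / (128 * T * N) * N = β / (128 * T)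
          field_simp
    have h2 : 0 ≤ v * ((p.2 l : ℕ) : ℝ) := by positivity
    have h3 : β / (128 * T) + β / (256 * T) ≤ β / (64 * T) := by
      have : β / (64 * T) - β / (128 * T) - β / (256 * T) = β / (256 * T) := by
        field_simp
        norm_num
      have h4 : 0 < β / (256 * T) := by positivity
      linarith
    have h5 : 0 < β / (64 * T) := by positivity
    have h6 : 0 < β / (256 * T) := by positivity
    rw [abs_of_nonneg (by split_ifs <;> linarith [hθidx0 p])]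
    split_ifs
    · linarith [hθidx p]
    · linarith
  have hnorm2 : ∀ p, ‖(a p).2‖ ≤ β / (64 * T) := by
    intro p
    rw [pi_norm_le_iff_of_nonneg (by positivity)]
    intro l
    rw [Real.norm_eq_abs]
    exact hbox2 p l
  have hsmall : β / (64 * T) ≤ 1 / 2 := by
    rw [div_le_iff₀ (by positivity)]
    nlinarith
  -- the determinants
  let D : I → I → ℝ := fun p q => ((a p).1 e0 - (a q).1 e0) * ((a p).2 e1 - (a q).2 e1) -
    ((a p).1 e1 - (a q).1 e1) * ((a p).2 e0 - (a q).2 e0)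
  have hD : ∀ p q, D p q = D0 p q θ := by
    intro p q
    show ((a p).1 e0 - (a q).1 e0) * ((a p).2 e1 - (a q).2 e1) -
      ((a p).1 e1 - (a q).1 e1) * ((a p).2 e0 - (a q).2 e0) = _
    rw [ha1, ha1, ha1, ha1, ha2, ha2, ha2, ha2]
    simp only [if_neg he, if_neg he.symm, if_true]
    ring
  have hDne : ∀ p q, p ≠ q → D p q ≠ 0 := by
    intro p q hpq h
    apply hθbad
    rw [Set.mem_iUnion]
    refine ⟨(p, q), hpq, Or.inl ?_⟩
    rw [← hD]
    exact h
  have hdvne : ∀ p q, p ≠ q → (a p).2 e0 - (a q).2 e0 ≠ 0 := by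
    intro p q hpq h
    apply hθbad
    rw [Set.mem_iUnion]
    refine ⟨(p, q), hpq, Or.inr ?_⟩
    rw [ha2, ha2] at h
    simp only [if_true] at h
    show (v * ((p.2 e0 : ℕ) : ℝ) - v * ((q.2 e0 : ℕ) : ℝ)) + θ * (idx p - idx q) = 0
    linarith
  obtain ⟨δ, hδ0, hδ⟩ := pos_lower (Finset.univ.filter (fun z : I × I => z.1 ≠ z.2))
    (fun z => min (|D z.1 z.2| / 2) |(a z.1).2 e0 - (a z.2).2 e0|) (by
      rintro ⟨p, q⟩ h
      rw [Finset.mem_filter] at h
      apply lt_min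
      · have := abs_pos.2 (hDne p q h.2)
        show 0 < |D p q| / 2
        linarith
      · exact abs_pos.2 (hdvne p q h.2))
  have hδ' : ∀ p q, p ≠ q → δ ≤ |D p q| / 2 ∧ δ ≤ |(a p).2 e0 - (a q).2 e0| := by
    intro p q hpq
    have h1 := hδ (p, q) (Finset.mem_filter.2 ⟨Finset.mem_univ _, hpq⟩)
    exact ⟨h1.trans (min_le_left _ _), h1.trans (min_le_right _ _)⟩
  have hdvle : ∀ p q l, |(a p).2 l - (a q).2 l| ≤ 1 := by
    intro p q l
    have h1 := hbox2 p l
    have h2 := hbox2 q l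
    have h3 := abs_sub ((a p).2 l) ((a q).2 l)
    linarith
  refine ⟨Finset.univ.image a, r, δ, hr0, hNε, hδ0, ?_, ?_, ?_, ?_, ?_, ?_⟩
  · refine ⟨a (fun _ => ⟨0, by omega⟩, fun _ => ⟨0, by omega⟩), ?_⟩
    exact Finset.mem_image_of_mem _ (Finset.mem_univ _)
  · intro y hy
    rw [Finset.mem_image] at hy
    obtain ⟨p, _, rfl⟩ := hy
    refine ⟨hbox1 p, ?_⟩
    rw [hrho]
    exact hnorm2 p
  · intro y hy y' hy' hne t ht
    rw [Finset.mem_image] at hy hy'
    obtain ⟨p, _, rfl⟩ := hy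
    obtain ⟨q, _, rfl⟩ := hy'
    have hpq : p ≠ q := fun h => hne (by rw [h])
    set w : V m := (a p).1 - (a q).1 + t • ((a p).2 - (a q).2) with hw
    have hw0 : w e0 = ((a p).1 e0 - (a q).1 e0) + t * ((a p).2 e0 - (a q).2 e0) := rfl
    have hw1 : w e1 = ((a p).1 e1 - (a q).1 e1) + t * ((a p).2 e1 - (a q).2 e1) := rfl
    have h1 : D p q = w e0 * ((a p).2 e1 - (a q).2 e1) - w e1 * ((a p).2 e0 - (a q).2 e0) := by
      rw [hw0, hw1]
      show ((a p).1 e0 - (a q).1 e0) * ((a p).2 e1 - (a q).2 e1) -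
        ((a p).1 e1 - (a q).1 e1) * ((a p).2 e0 - (a q).2 e0) = _
      ring
    have h2 : |w e0| ≤ ‖w‖ := norm_le_pi_norm w e0
    have h3 : |w e1| ≤ ‖w‖ := norm_le_pi_norm w e1
    have h4 : |D p q| ≤ 2 * ‖w‖ := by
      rw [h1]
      calc |w e0 * ((a p).2 e1 - (a q).2 e1) - w e1 * ((a p).2 e0 - (a q).2 e0)|
          ≤ |w e0 * ((a p).2 e1 - (a q).2 e1)| + |w e1 * ((a p).2 e0 - (a q).2 e0)| := abs_sub _ _
        _ = |w e0| * |(a p).2 e1 - (a q).2 e1| + |w e1| * |(a p).2 e0 - (a q).2 e0| := by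
            rw [abs_mul, abs_mul]
        _ ≤ ‖w‖ * 1 + ‖w‖ * 1 := by
            apply add_le_add
            · exact mul_le_mul h2 (hdvle p q e1) (abs_nonneg _) (norm_nonneg _)
            · exact mul_le_mul h3 (hdvle p q e0) (abs_nonneg _) (norm_nonneg _)
        _ = 2 * ‖w‖ := by ring
    have h5 := (hδ' p q hpq).1
    linarith
  · intro y hy y' hy' hne
    rw [Finset.mem_image] at hy hy'
    obtain ⟨p, _, rfl⟩ := hy
    obtain ⟨q, _, rfl⟩ := hy'
    have hpq : p ≠ q := fun h => hne (by rw [h])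
    exact (hδ' p q hpq).2.trans (norm_le_pi_norm ((a p).2 - (a q).2) e0)
  · intro y hy y' hy' hne
    rw [Finset.mem_image] at hy hy'
    obtain ⟨p, _, rfl⟩ := hy
    obtain ⟨q, _, rfl⟩ := hy'
    exact hdist p q (fun h => hne (by rw [h]))
  · rw [Finset.card_image_of_injective _ hinj, Finset.card_univ]
    have hcard : Fintype.card I = N ^ m * N ^ m := by
      show Fintype.card ((Fin m → Fin N) × (Fin m → Fin N)) = _
      rw [Fintype.card_prod, Fintype.card_fun, Fintype.card_fin, Fintype.card_fin]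
    rw [hcard]
    exact hcount

end Pool.Agent.Y569.KS
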