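import Pool.Agent.Y292.KS.Stm

/-!
# Project KS: the compact sets (job KS-SYS)
-/

set_option autoImplicit false

namespace Pool.Agent.Y569.KS

open Pool.Agent.Y292.KS Set

theorem tau_cont {m : ℕ} (z : V m × V m) : Continuous (tau z : F m → F m) := by
  unfold tau
  fun_prop

theorem tau_neg {m : ℕ} (z : V m × V m) (q : F m) : tau (-z) (tau z q) = q := by
  unfold tau
  ext i
  · rfl
  · show q.2 i + z.1 i + q.1 * z.2 i + (-z.1 i) + q.1 * (-z.2 i) = q.2 i
    ring

theorem tau_neg' {m : ℕ} (z : V m × V m) (q : F m) : tau z (tau (-z) q) = q := by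
  have := tau_neg (-z) q
  rwa [neg_neg] at this

theorem tube_compact {m : ℕ} (T b : ℝ) : IsCompact (Tube T b : Set (F m)) := by
  have h : (Tube T b : Set (F m)) = Metric.closedBall (0 : ℝ) T ×ˢ Metric.closedBall (0 : V m) b := by
    ext q
    simp only [Tube, mem_ofPred_eq, mem_prod, mem_closedBall_zero_iff, Real.norm_eq_abs]
  rw [h]
  exact (isCompact_closedBall _ _).prod (isCompact_closedBall _ _)

section rec

variable {m : ℕ} (T : ℝ) (β : ℕ → ℝ) (A : ℕ → Finset (V m × V m)) (B : ℕ → Set (F m))

/-- the approximations -/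
def Xs : ℕ → ℕ → Set (F m)
  | 0, k => Tube T (β k)
  | j + 1, k => B k ∪ ⋃ a ∈ A k, tau a '' Xs j (k + 1)

theorem Xs_zero (k : ℕ) : Xs T β A B 0 k = Tube T (β k) := by rw [Xs]

theorem Xs_succ (j k : ℕ) :
    Xs T β A B (j + 1) k = B k ∪ ⋃ a ∈ A k, tau a '' Xs T β A B j (k + 1) := by rw [Xs]

end rec

theorem t_SYS : S_SYS := by
  classical
  intro m T β A B hT hβ hBc hBT htau hseg
  set X := Xs T β A B with hX
  have hcomp : ∀ j k, IsCompact (X j k) := by
    intro j
    induction j with
    | zero => intro k; rw [hX, Xs_zero]; exact tube_compact _ _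
    | succ j ih =>
      intro k
      rw [hX, Xs_succ]
      exact (hBc k).union ((A k).isCompact_biUnion (fun a _ => (ih (k + 1)).image (tau_cont a)))
  have htube : ∀ j k, X j k ⊆ Tube T (β k) := by
    intro j
    induction j with
    | zero => intro k; rw [hX, Xs_zero]
    | succ j ih =>
      intro k
      rw [hX, Xs_succ]
      apply union_subset (hBT k)
      apply iUnion₂_subset
      intro a ha
      exact (image_mono (ih (k + 1))).trans (htau k a ha)
  have hanti : ∀ j k, X (j + 1) k ⊆ X j k := by
    intro j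
    induction j with
    | zero =>
      intro k
      rw [hX, Xs_zero]
      exact htube 1 k
    | succ j ih =>
      intro k
      rw [hX, Xs_succ T β A B (j + 1), Xs_succ T β A B j]
      apply union_subset_union_right
      apply iUnion₂_mono
      intro a _
      exact image_mono (ih (k + 1))
  have hanti' : ∀ i j k, i ≤ j → X j k ⊆ X i k := by
    intro i j k hij
    induction hij with
    | refl => exact subset_rfl
    | step _ ih => exact (hanti _ k).trans ih
  have hsegj : ∀ j k, ∀ v : V m, ‖v‖ ≤ rho T (β k) → ∃ p, SegIn 1 v p (X j k) := by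
    intro j
    induction j with
    | zero =>
      intro k v hv
      refine ⟨0, ?_⟩
      intro s hs
      rw [hX, Xs_zero]
      have hr : rho T (β k) ≤ β k := by
        unfold rho
        rw [div_le_iff₀ (by linarith)]
        nlinarith [hβ k]
      refine ⟨?_, ?_⟩
      · show |(0 : ℝ) + s| ≤ T
        rw [zero_add, abs_of_nonneg hs.1]
        linarith [hs.2]
      · show ‖(0 : V m) + s • v‖ ≤ β k
        rw [zero_add, norm_smul, Real.norm_of_nonneg hs.1]
        calc s * ‖v‖ ≤ 1 * ‖v‖ := mul_le_mul_of_nonneg_right hs.2 (norm_nonneg v)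
          _ ≤ β k := by linarith
    | succ j ih =>
      intro k v hv
      by_cases h : ∀ a ∈ A k, rho T (β (k + 1)) ≤ ‖v - a.2‖
      · obtain ⟨p, hp⟩ := hseg k v hv h
        refine ⟨p, fun s hs => ?_⟩
        rw [hX, Xs_succ]
        exact Or.inl (hp s hs)
      · push Not at h
        obtain ⟨a, ha, hlt⟩ := h
        obtain ⟨p, hp⟩ := ih (k + 1) (v - a.2) hlt.le
        refine ⟨tau a p, fun s hs => ?_⟩
        rw [hX, Xs_succ]
        apply Or.inr
        apply mem_biUnion ha
        refine ⟨_, hp s hs, ?_⟩
        unfold tau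
        ext i
        · rfl
        · show p.2 i + s * (v i - a.2 i) + a.1 i + (p.1 + s) * a.2 i =
            p.2 i + a.1 i + p.1 * a.2 i + s * v i
          ring
  refine ⟨fun k => ⋂ j, X j k, ?_, ?_, ?_, ?_⟩
  · intro k
    exact (hcomp 0 k).of_isClosed_subset (isClosed_iInter (fun j => (hcomp j k).isClosed))
      (iInter_subset _ 0)
  · intro k
    exact (iInter_subset _ 0).trans (htube 0 k)
  · intro k
    apply Subset.antisymm
    · intro x hx
      rw [mem_iInter] at hx
      by_contra hcon
      rw [mem_union, not_or] at hcon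
      obtain ⟨hB, hU⟩ := hcon
      have h1 : ∀ a ∈ A k, ∃ j, tau (-a) x ∉ X j (k + 1) := by
        intro a ha
        by_contra hno
        push Not at hno
        apply hU
        apply mem_biUnion ha
        exact ⟨tau (-a) x, mem_iInter.2 hno, tau_neg' a x⟩
      choose! J hJ using h1
      have h2 := hx ((A k).sup J + 1)
      rw [hX, Xs_succ] at h2
      rcases h2 with h2 | h2
      · exact hB h2
      · rw [mem_iUnion₂] at h2
        obtain ⟨a, ha, y, hy, hyx⟩ := h2
        apply hJ a ha
        rw [← hyx, tau_neg]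
        exact hanti' _ _ _ (Finset.le_sup ha) hy
    · intro x hx
      rw [mem_iInter]
      intro j
      rcases j with _ | j
      · rw [hX, Xs_zero]
        rcases hx with hx | hx
        · exact hBT k hx
        · rw [mem_iUnion₂] at hx
          obtain ⟨a, ha, y, hy, rfl⟩ := hx
          apply htau k a ha
          exact ⟨y, htube 0 (k + 1) (mem_iInter.1 hy 0), rfl⟩
      · rw [hX, Xs_succ]
        rcases hx with hx | hx
        · exact Or.inl hx
        · rw [mem_iUnion₂] at hx
          obtain ⟨a, ha, y, hy, rfl⟩ := hx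
          apply Or.inr
          apply mem_biUnion ha
          exact ⟨y, mem_iInter.1 hy j, rfl⟩
  · intro k v hv
    let t : ℕ → Set (F m) := fun j => {p | SegIn 1 v p (X j k)}
    have hcl : ∀ j, IsClosed (t j) := by
      intro j
      have : t j = ⋂ s ∈ Icc (0 : ℝ) 1, (fun p : F m => ((p.1 + s, p.2 + s • v) : F m)) ⁻¹' (X j k) := by
        ext p
        simp only [t, SegIn, mem_ofPred_eq, mem_iInter, mem_preimage]
      rw [this]
      apply isClosed_biInter
      intro s _
      apply (hcomp j k).isClosed.preimage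
      fun_prop
    have hsub : t 0 ⊆ X 0 k := by
      intro p hp
      have := hp 0 ⟨le_rfl, zero_le_one⟩
      simpa using this
    obtain ⟨p, hp⟩ := IsCompact.nonempty_iInter_of_sequence_nonempty_isCompact_isClosed t
      (fun j p hp s hs => hanti j k (hp s hs)) (fun j => hsegj j k v hv)
      ((hcomp 0 k).of_isClosed_subset (hcl 0) hsub) hcl
    refine ⟨p, fun s hs => ?_⟩
    rw [mem_iInter]
    intro j
    exact mem_iInter.1 hp j s hs

end Pool.Agent.Y569.KS
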