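import Pool.Agent.Y292.KS.Stm
import Pool.Agent.Y569.KS.Sys

/-!
# Project KS: Hausdorff dimension (job KS-DIM)
-/

set_option autoImplicit false

namespace Pool.Agent.Y569.KS

open Pool.Agent.Y292.KS Set MeasureTheory Filter Topology
open scoped ENNReal NNReal

theorem tau_add {m : ℕ} (c a : V m × V m) (q : F m) : tau c (tau a q) = tau (c + a) q := by
  unfold tau
  ext i
  · rfl
  · show q.2 i + a.1 i + q.1 * a.2 i + c.1 i + q.1 * c.2 i =
      q.2 i + (c.1 i + a.1 i) + q.1 * (c.2 i + a.2 i)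
    ring

theorem tau_dim {m : ℕ} (c : V m × V m) (S : Set (F m)) : dimH (tau c '' S) ≤ dimH S := by
  have h : ContDiff ℝ 1 (tau c : F m → F m) := by
    unfold tau
    apply ContDiff.prodMk
    · fun_prop
    · fun_prop
  exact ContDiffOn.dimH_image_le (h.contDiffOn (s := univ)) convex_univ (subset_univ S)

open Classical in
/-- sums of words -/
noncomputable def Zs {m : ℕ} (A : ℕ → Finset (V m × V m)) : ℕ → Finset (V m × V m)
  | 0 => {0}
  | k + 1 => Finset.image₂ (fun c a => c + a) (Zs A k) (A k)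

section words

variable {m : ℕ} {T κ : ℝ} {A : ℕ → Finset (V m × V m)} {β r : ℕ → ℝ}

theorem Zs_card (A : ℕ → Finset (V m × V m)) (k : ℕ) :
    (Zs A k).card ≤ ∏ i ∈ Finset.range k, (A i).card := by
  classical
  induction k with
  | zero => simp [Zs]
  | succ k ih =>
    rw [Zs, Finset.prod_range_succ]
    exact (Finset.card_image₂_le _ _ _).trans (Nat.mul_le_mul_right _ ih)

theorem Zs_norm (hG : Good m T κ A β r) (k : ℕ) : ∀ c ∈ Zs A k, ‖c.2‖ + β k ≤ 1 := by
  classical
  induction k with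
  | zero =>
    intro c hc
    rw [Zs, Finset.mem_singleton] at hc
    subst hc
    simpa using hG.one
  | succ k ih =>
    intro c hc
    rw [Zs, Finset.mem_image₂] at hc
    obtain ⟨c', hc', a, ha, rfl⟩ := hc
    have h1 := ih c' hc'
    have h2 := (hG.box k a ha).2
    have h3 := hG.dec k
    have h4 : ‖(c' + a).2‖ ≤ ‖c'.2‖ + ‖a.2‖ := norm_add_le _ _
    have h5 : rho T (β k) / 2 ≤ β k / 64 := by
      unfold rho
      have := hG.hT
      have hb := hG.pos k
      rw [div_div, div_le_div_iff₀ (by positivity) (by norm_num)]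
      nlinarith
    have hb := hG.pos k
    linarith

theorem beta_le (hG : Good m T κ A β r) (k : ℕ) : β k ≤ (1 / 64 : ℝ) ^ k := by
  induction k with
  | zero => simpa using hG.one
  | succ k ih =>
    rw [pow_succ]
    have := hG.dec k
    linarith

theorem cover {B X : ℕ → Set (F m)} (hX : ∀ k, X k = B k ∪ ⋃ a ∈ A k, tau a '' X (k + 1)) (k : ℕ) :
    X 0 ⊆ (⋃ j : ℕ, ⋃ c ∈ Zs A j, tau c '' B j) ∪ ⋃ c ∈ Zs A k, tau c '' X k := by
  classical
  induction k with
  | zero =>
    intro x hx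
    apply Or.inr
    apply mem_biUnion (show (0 : V m × V m) ∈ (Zs A 0 : Finset (V m × V m)) by
      rw [Zs]; exact Finset.mem_singleton_self _)
    refine ⟨x, hx, ?_⟩
    unfold tau
    simp
  | succ k ih =>
    intro x hx
    rcases ih hx with h | h
    · exact Or.inl h
    · rw [mem_iUnion₂] at h
      obtain ⟨c, hc, y, hy, rfl⟩ := h
      rw [hX k] at hy
      rcases hy with hy | hy
      · apply Or.inl
        exact mem_iUnion.2 ⟨k, mem_biUnion hc ⟨y, hy, rfl⟩⟩
      · rw [mem_iUnion₂] at hy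
        obtain ⟨a, ha, y', hy', rfl⟩ := hy
        apply Or.inr
        have hmem : c + a ∈ Zs A (k + 1) := by
          rw [Zs]
          exact Finset.mem_image₂_of_mem hc ha
        apply mem_biUnion hmem
        exact ⟨y', hy', (tau_add c a y').symm⟩

/-- slabs of a tube -/
def slab {m : ℕ} (T b : ℝ) (i : ℕ) : Set (F m) :=
  {q | -T + 2 * b * i ≤ q.1 ∧ q.1 ≤ -T + 2 * b * (i + 1) ∧ ‖q.2‖ ≤ b}

theorem slab_diam (T b : ℝ) (hb : 0 ≤ b) (i : ℕ) (c : V m × V m) (hc : ‖c.2‖ ≤ 1) :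
    Metric.ediam (tau c '' slab T b i) ≤ ENNReal.ofReal (4 * b) := by
  apply Metric.ediam_le
  rintro _ ⟨q, hq, rfl⟩ _ ⟨q', hq', rfl⟩
  rw [edist_dist]
  apply ENNReal.ofReal_le_ofReal
  obtain ⟨h1, h2, h3⟩ := hq
  obtain ⟨h1', h2', h3'⟩ := hq'
  have h4 : |q.1 - q'.1| ≤ 2 * b := by
    rw [abs_le]
    constructor <;> linarith
  rw [Prod.dist_eq]
  apply max_le
  · show |q.1 - q'.1| ≤ 4 * b
    linarith
  · show dist (q.2 + c.1 + q.1 • c.2) (q'.2 + c.1 + q'.1 • c.2) ≤ 4 * b
    rw [dist_eq_norm]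
    have e : q.2 + c.1 + q.1 • c.2 - (q'.2 + c.1 + q'.1 • c.2) =
        q.2 - q'.2 + (q.1 - q'.1) • c.2 := by
      rw [sub_smul]
      abel
    rw [e]
    calc ‖q.2 - q'.2 + (q.1 - q'.1) • c.2‖ ≤ ‖q.2 - q'.2‖ + ‖(q.1 - q'.1) • c.2‖ := norm_add_le _ _
      _ ≤ (‖q.2‖ + ‖q'.2‖) + |q.1 - q'.1| * ‖c.2‖ := by
          apply add_le_add (norm_sub_le _ _)
          rw [norm_smul, Real.norm_eq_abs]
      _ ≤ (b + b) + 2 * b * 1 := by
          apply add_le_add (add_le_add h3 h3')
          exact mul_le_mul h4 hc (norm_nonneg _) (by linarith)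
      _ = 4 * b := by ring

theorem slab_cover (T b : ℝ) (hb : 0 < b) (q : F m) (hq : q ∈ (Tube T b : Set (F m))) :
    ∃ i : Fin (⌊T / b⌋₊ + 1), q ∈ (slab T b (i : ℕ) : Set (F m)) := by
  obtain ⟨h1, h2⟩ := hq
  rw [abs_le] at h1
  have h3 : 0 ≤ (q.1 + T) / (2 * b) := div_nonneg (by linarith) (by linarith)
  have h4 : ⌊(q.1 + T) / (2 * b)⌋₊ ≤ ⌊T / b⌋₊ := by
    apply Nat.floor_le_floor
    rw [div_le_div_iff₀ (by linarith) hb]
    nlinarith
  refine ⟨⟨⌊(q.1 + T) / (2 * b)⌋₊, by omega⟩, ?_, ?_, h2⟩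
  · show -T + 2 * b * ((⌊(q.1 + T) / (2 * b)⌋₊ : ℕ) : ℝ) ≤ q.1
    have := Nat.floor_le h3
    rw [le_div_iff₀ (by linarith)] at this
    linarith
  · show q.1 ≤ -T + 2 * b * (((⌊(q.1 + T) / (2 * b)⌋₊ : ℕ) : ℝ) + 1)
    have := Nat.lt_floor_add_one ((q.1 + T) / (2 * b))
    rw [div_lt_iff₀ (by linarith)] at this
    linarith

theorem hausd (hG : Good m T κ A β r) (d : ℝ) (hd : 1 < d) (W : Set (F m))
    (hW : ∀ k, W ⊆ ⋃ c ∈ Zs A k, tau c '' Tube T (β k)) :
    μH[d] W ≤ ENNReal.ofReal (2 * T * 4 ^ d) := by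
  classical
  have hT := hG.hT
  have hd0 : 0 < d := by linarith
  let L : ℕ → ℕ := fun k => ⌊T / β (k + 1)⌋₊ + 1
  let ι : ℕ → Type := fun k => ↥(Zs A (k + 1)) × Fin (L k)
  let t : ∀ k, ι k → Set (F m) := fun k z => tau z.1.1 '' slab T (β (k + 1)) (z.2 : ℕ)
  have hc1 : ∀ k, ∀ c ∈ Zs A k, ‖c.2‖ ≤ 1 := by
    intro k c hc
    have := Zs_norm hG k c hc
    have := hG.pos k
    linarith
  have hdiam : ∀ k (z : ι k), Metric.ediam (t k z) ≤ ENNReal.ofReal (4 * β (k + 1)) :=
    fun k z => slab_diam T _ (hG.pos _).le _ _ (hc1 _ _ z.1.2)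
  have hlim : Tendsto (fun k => ENNReal.ofReal (4 * β (k + 1))) atTop (𝓝 0) := by
    have h1 : Tendsto (fun k : ℕ => 4 * β (k + 1)) atTop (𝓝 0) := by
      have h2 : Tendsto (fun k : ℕ => 4 * (1 / 64 : ℝ) ^ (k + 1)) atTop (𝓝 0) := by
        have h3 : Tendsto (fun k : ℕ => (1 / 64 : ℝ) ^ k) atTop (𝓝 0) :=
          tendsto_pow_atTop_nhds_zero_of_lt_one (by norm_num) (by norm_num)
        have h4 := (h3.comp (tendsto_add_atTop_nat 1)).const_mul 4
        rw [mul_zero] at h4
        exact h4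
      refine squeeze_zero (fun k => ?_) (fun k => ?_) h2
      · have := hG.pos (k + 1)
        positivity
      · have := beta_le hG (k + 1)
        linarith
    have h5 := (ENNReal.continuous_ofReal.tendsto 0).comp h1
    rw [ENNReal.ofReal_zero] at h5
    exact h5
  have hmain := Measure.hausdorffMeasure_le_liminf_sum d W (l := atTop)
    (fun k => ENNReal.ofReal (4 * β (k + 1))) hlim t (Eventually.of_forall hdiam)
    (Eventually.of_forall (fun k => by
      intro x hx
      have := hW (k + 1) hx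
      rw [mem_iUnion₂] at this
      obtain ⟨c, hc, y, hy, rfl⟩ := this
      obtain ⟨i, hi⟩ := slab_cover T (β (k + 1)) (hG.pos _) y hy
      exact mem_iUnion.2 ⟨(⟨c, hc⟩, i), ⟨y, hi, rfl⟩⟩))
  refine hmain.trans ?_
  have hev : ∀ᶠ k : ℕ in atTop, (∑ i : ι k, Metric.ediam (t k i) ^ d) ≤
      ENNReal.ofReal (2 * T * 4 ^ d) := by
    have hk : ∀ᶠ k : ℕ in atTop, (1 : ℝ) / ((k : ℝ) + 1) ≤ d - 1 := by
      have h1 : Tendsto (fun k : ℕ => (1 : ℝ) / ((k : ℝ) + 1)) atTop (𝓝 0) :=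
        tendsto_one_div_add_atTop_nhds_zero_nat
      exact (h1.eventually (gt_mem_nhds (show (0 : ℝ) < d - 1 by linarith))).mono
        (fun k h => h.le)
    filter_upwards [hk] with k hk
    set b := β (k + 1) with hb
    have hb0 : 0 < b := hG.pos _
    have hb1 : b ≤ 1 := by
      have := beta_le hG (k + 1)
      have h2 : (1 / 64 : ℝ) ^ (k + 1) ≤ 1 := pow_le_one₀ (by norm_num) (by norm_num)
      linarith
    have h1 : (∑ i : ι k, Metric.ediam (t k i) ^ d) ≤
        (Fintype.card (ι k) : ℝ≥0∞) * ENNReal.ofReal (4 * b) ^ d := by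
      calc (∑ i : ι k, Metric.ediam (t k i) ^ d) ≤ ∑ _i : ι k, ENNReal.ofReal (4 * b) ^ d :=
            Finset.sum_le_sum (fun i _ => ENNReal.rpow_le_rpow (hdiam k i) hd0.le)
        _ = (Fintype.card (ι k) : ℝ≥0∞) * ENNReal.ofReal (4 * b) ^ d := by
            rw [Finset.sum_const, nsmul_eq_mul, Finset.card_univ]
    refine h1.trans ?_
    rw [ENNReal.ofReal_rpow_of_pos (by positivity), ← ENNReal.ofReal_natCast,
      ← ENNReal.ofReal_mul (Nat.cast_nonneg _)]
    apply ENNReal.ofReal_le_ofReal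
    have hcard : (Fintype.card (ι k) : ℝ) ≤
        ((∏ i ∈ Finset.range (k + 1), (A i).card : ℕ) : ℝ) * (2 * T / b) := by
      have h2 : Fintype.card (ι k) = (Zs A (k + 1)).card * L k := by
        show Fintype.card (↥(Zs A (k + 1)) × Fin (L k)) = _
        rw [Fintype.card_prod, Fintype.card_coe, Fintype.card_fin]
      rw [h2]
      push_cast
      apply mul_le_mul
      · exact_mod_cast Zs_card A (k + 1)
      · show ((⌊T / b⌋₊ + 1 : ℕ) : ℝ) ≤ 2 * T / b
        push_cast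
        have h3 := Nat.floor_le (show 0 ≤ T / b by positivity)
        have h4 : 1 ≤ T / b := by
          rw [le_div_iff₀ hb0]
          linarith
        have h5 : 2 * T / b = T / b + T / b := by ring
        linarith
      · positivity
      · exact Finset.prod_nonneg (fun i _ => Nat.cast_nonneg _)
    have hsmall := hG.small k
    set P : ℝ := ((∏ i ∈ Finset.range (k + 1), (A i).card : ℕ) : ℝ) with hP
    have hP0 : 0 ≤ P := Nat.cast_nonneg _
    calc (Fintype.card (ι k) : ℝ) * (4 * b) ^ d ≤ (P * (2 * T / b)) * (4 * b) ^ d :=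
          mul_le_mul_of_nonneg_right hcard (by positivity)
      _ = 2 * T * 4 ^ d * ((P * b ^ ((1 : ℝ) / ((k : ℝ) + 1))) *
            b ^ (d - 1 - (1 : ℝ) / ((k : ℝ) + 1))) := by
          rw [Real.mul_rpow (by norm_num) hb0.le]
          have h6 : b ^ d = b ^ ((1 : ℝ) / ((k : ℝ) + 1)) *
              b ^ (d - 1 - (1 : ℝ) / ((k : ℝ) + 1)) * b := by
            rw [← Real.rpow_add hb0]
            nth_rewrite 3 [← Real.rpow_one b]
            rw [← Real.rpow_add hb0]
            congr 1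
            ring
          rw [h6]
          field_simp
      _ ≤ 2 * T * 4 ^ d * (1 * 1) := by
          apply mul_le_mul_of_nonneg_left _ (by positivity)
          apply mul_le_mul hsmall _ (by positivity) zero_le_one
          exact Real.rpow_le_one hb0.le hb1 (by linarith)
      _ = 2 * T * 4 ^ d := by ring
  calc liminf (fun k => ∑ i : ι k, Metric.ediam (t k i) ^ d) atTop
      ≤ liminf (fun _ : ℕ => ENNReal.ofReal (2 * T * 4 ^ d)) atTop := liminf_le_liminf hev
    _ = ENNReal.ofReal (2 * T * 4 ^ d) := liminf_const _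

end words

theorem t_DIM : S_DIM := by
  classical
  intro m T κ A β r B X D hG hXT hX hD hB
  set C : Set (F m) := ⋃ j : ℕ, ⋃ c ∈ Zs A j, tau c '' B j with hC
  set W : Set (F m) := ⋂ k : ℕ, ⋃ c ∈ Zs A k, tau c '' Tube T (β k) with hW
  have h1 : X 0 ⊆ C ∪ W := by
    intro x hx
    by_cases hxC : x ∈ C
    · exact Or.inl hxC
    · apply Or.inr
      rw [hW, mem_iInter]
      intro k
      rcases cover hX k hx with h | h
      · exact absurd h hxC
      · rw [mem_iUnion₂] at h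
        obtain ⟨c, hc, y, hy, rfl⟩ := h
        exact mem_biUnion hc ⟨y, hXT k hy, rfl⟩
  have h2 : dimH C ≤ D := by
    rw [hC, dimH_iUnion]
    apply iSup_le
    intro j
    have hcount : ((Zs A j : Finset (V m × V m)) : Set (V m × V m)).Countable :=
      (Zs A j).countable_toSet
    have h3 : dimH (⋃ c ∈ ((Zs A j : Finset (V m × V m)) : Set (V m × V m)), tau c '' B j) ≤ D := by
      rw [dimH_bUnion hcount]
      exact iSup₂_le (fun c _ => (tau_dim c (B j)).trans (hB j))
    exact h3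
  have h3 : dimH W ≤ 1 := by
    apply dimH_le
    intro d' hd'
    by_contra hcon
    push Not at hcon
    have hd1 : (1 : ℝ) < (d' : ℝ) := by exact_mod_cast hcon
    have h4 := hausd hG (d' : ℝ) hd1 W (fun k => iInter_subset _ k)
    rw [hd'] at h4
    exact absurd h4 (not_le.2 ENNReal.ofReal_lt_top)
  calc dimH (X 0) ≤ dimH (C ∪ W) := dimH_mono h1
    _ = max (dimH C) (dimH W) := dimH_union C W
    _ ≤ D := max_le h2 (h3.trans hD)

end Pool.Agent.Y569.KS
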