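import Pool.Agent.Y292.KS.Stm2

/-!
# Project KS: one thin copy (job KS-PIECE)
-/

set_option autoImplicit false

namespace Pool.Agent.Y569.KS

open Pool.Agent.Y292.KS Set

theorem t_PIECE : S_PIECE := by
  intro m T κ η K z hT hκ hκ1 hη hK hKT hseg
  let φ : F m → F m := fun q => (q.1 / κ, (η / κ) • q.2 + z.1 + (q.1 / κ) • z.2)
  have hφ : ContDiff ℝ 1 φ := by
    apply ContDiff.prodMk
    · fun_prop
    · fun_prop
  have hpt : ∀ q ∈ φ '' K, |q.1| ≤ T ∧ ‖q.2 - z.1 - q.1 • z.2‖ ≤ T * η := by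
    rintro q ⟨⟨t, y⟩, hq, rfl⟩
    obtain ⟨h1, h2⟩ := hKT hq
    have h1' : |t| ≤ κ * T := h1
    have h2' : ‖y‖ ≤ κ * T := h2
    refine ⟨?_, ?_⟩
    · show |t / κ| ≤ T
      rw [abs_div, abs_of_pos hκ, div_le_iff₀ hκ]
      linarith
    · show ‖(η / κ) • y + z.1 + (t / κ) • z.2 - z.1 - (t / κ) • z.2‖ ≤ T * η
      have h3 : (η / κ) • y + z.1 + (t / κ) • z.2 - z.1 - (t / κ) • z.2 = (η / κ) • y := by abel
      rw [h3, norm_smul, Real.norm_of_nonneg (by positivity)]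
      calc η / κ * ‖y‖ ≤ η / κ * (κ * T) := mul_le_mul_of_nonneg_left h2' (by positivity)
        _ = T * η := by field_simp
  refine ⟨φ '' K, hK.image hφ.continuous, ?_, hpt, ?_, ?_⟩
  · exact ContDiffOn.dimH_image_le (hφ.contDiffOn (s := univ)) convex_univ (subset_univ K)
  · intro v hv
    have hw : ‖η⁻¹ • (v - z.2)‖ ≤ 1 := by
      rw [norm_smul, Real.norm_of_nonneg (by positivity), inv_mul_le_iff₀ hη]
      linarith
    obtain ⟨p₀, hp₀⟩ := hseg _ hw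
    refine ⟨φ p₀, ?_⟩
    intro s hs
    have h1 := hp₀ (κ * s) ⟨by have := hs.1; positivity, by nlinarith [hs.2]⟩
    refine ⟨_, h1, ?_⟩
    show ((p₀.1 + κ * s) / κ, (η / κ) • (p₀.2 + (κ * s) • η⁻¹ • (v - z.2)) + z.1 +
      ((p₀.1 + κ * s) / κ) • z.2) = (p₀.1 / κ + s, (η / κ) • p₀.2 + z.1 + (p₀.1 / κ) • z.2 + s • v)
    have e1 : (p₀.1 + κ * s) / κ = p₀.1 / κ + s := by field_simp
    rw [e1]
    have e2 : (η / κ) • (p₀.2 + (κ * s) • η⁻¹ • (v - z.2)) + z.1 + (p₀.1 / κ + s) • z.2 =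
        (η / κ) • p₀.2 + z.1 + (p₀.1 / κ) • z.2 + s • v := by
      ext i
      simp only [Pi.add_apply, Pi.smul_apply, smul_eq_mul, Pi.sub_apply]
      field_simp
      ring
    rw [e2]
  · intro v p hp
    have h0 := hpt _ (hp 0 ⟨le_rfl, hκ.le⟩)
    have h1 := hpt _ (hp κ ⟨hκ.le, le_rfl⟩)
    have h0' : ‖p.2 + (0 : ℝ) • v - z.1 - (p.1 + 0) • z.2‖ ≤ T * η := h0.2
    have h1' : ‖p.2 + κ • v - z.1 - (p.1 + κ) • z.2‖ ≤ T * η := h1.2
    have e : κ • (v - z.2) = (p.2 + κ • v - z.1 - (p.1 + κ) • z.2) -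
        (p.2 + (0 : ℝ) • v - z.1 - (p.1 + 0) • z.2) := by
      rw [add_smul, add_smul, zero_smul, zero_smul, smul_sub]
      abel
    have h2 : ‖κ • (v - z.2)‖ ≤ T * η + T * η := by
      rw [e]
      exact (norm_sub_le _ _).trans (add_le_add h1' h0')
    rw [norm_smul, Real.norm_of_nonneg hκ.le] at h2
    linarith

end Pool.Agent.Y569.KS
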