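import Pool.Agent.Y292.KS.Stm

/-!
# Project KS: existence of the parameters (job KS-SEQ)
-/

set_option autoImplicit false

namespace Pool.Agent.Y569.KS

open Pool.Agent.Y292.KS Set

/-- states of the recursion -/
abbrev St : Type := {p : ℝ × ℕ // 0 < p.1 ∧ p.1 ≤ 1 ∧ 1 ≤ p.2}

theorem step (hCH : S_CH) (m : ℕ) (hm : 2 ≤ m) (T κ : ℝ) (hT : 1 ≤ T) (hκ : 0 < κ)
    (k : ℕ) (p : St) : ∃ (A : Finset (V m × V m)) (r b : ℝ), 0 < b ∧ b ≤ p.1.1 / 64 ∧ A.Nonempty ∧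
      (∀ a ∈ A, (∀ i, 0 ≤ a.1 i ∧ a.1 i ≤ p.1.1 / 2) ∧ ‖a.2‖ ≤ rho T p.1.1 / 2) ∧
      (∀ a ∈ A, ∀ b' ∈ A, a ≠ b' → ∀ t : ℝ, |t| ≤ T → 4 * b ≤ ‖a.1 - b'.1 + t • (a.2 - b'.2)‖) ∧
      (∀ a ∈ A, ∀ b' ∈ A, a ≠ b' → 8 * b ≤ κ * ‖a.2 - b'.2‖) ∧
      0 < r ∧ r ≤ 1 / ((k : ℝ) + 1) ∧
      (∀ a ∈ A, ∀ b' ∈ A, a ≠ b' → r ≤ dist a b') ∧ 8 * b ≤ r ∧
      r ^ (-(2 * (m : ℝ) - 1 / ((k : ℝ) + 1))) ≤ (A.card : ℝ) ∧
      ((p.1.2 * A.card : ℕ) : ℝ) * b ^ ((1 : ℝ) / ((k : ℝ) + 1)) ≤ 1 := by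
  obtain ⟨⟨β, M⟩, hβ0, hβ1, hM⟩ := p
  have hβ0' : 0 < β := hβ0
  have hβ1' : β ≤ 1 := hβ1
  have hM' : 1 ≤ M := hM
  have hk : (0 : ℝ) < 1 / ((k : ℝ) + 1) := by positivity
  obtain ⟨A, r, δ, hr, hrle, hδ, hne, hbox, hsep, hsepv, hrsep, hcount⟩ :=
    hCH m hm T β (1 / ((k : ℝ) + 1)) hT hβ0' hβ1' hk
  have hcard : 0 < A.card := Finset.card_pos.2 hne
  have hMA : (0 : ℝ) < ((M * A.card : ℕ) : ℝ) := by
    exact_mod_cast Nat.mul_pos (by omega) hcard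
  set q : ℝ := (1 / ((M * A.card : ℕ) : ℝ)) ^ (k + 1) with hq
  have hqpos : 0 < q := by rw [hq]; positivity
  let b : ℝ := min (β / 64) (min (δ / 4) (min (κ * δ / 8) (min (r / 8) q)))
  have hb0 : 0 < b := by
    apply lt_min (by positivity)
    apply lt_min (by positivity)
    apply lt_min (by positivity)
    exact lt_min (by positivity) hqpos
  have hb1 : b ≤ β / 64 := min_le_left _ _
  have hb2 : b ≤ δ / 4 := (min_le_right _ _).trans (min_le_left _ _)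
  have hb3 : b ≤ κ * δ / 8 :=
    (min_le_right _ _).trans ((min_le_right _ _).trans (min_le_left _ _))
  have hb4 : b ≤ r / 8 := (min_le_right _ _).trans ((min_le_right _ _).trans
    ((min_le_right _ _).trans (min_le_left _ _)))
  have hb5 : b ≤ q := (min_le_right _ _).trans ((min_le_right _ _).trans
    ((min_le_right _ _).trans (min_le_right _ _)))
  refine ⟨A, r, b, hb0, hb1, hne, hbox, ?_, ?_, hr, hrle, hrsep, by linarith, hcount, ?_⟩
  · intro a ha b' hb' hab t ht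
    have := hsep a ha b' hb' hab t ht
    linarith
  · intro a ha b' hb' hab
    have h1 := hsepv a ha b' hb' hab
    have h2 := mul_le_mul_of_nonneg_left h1 hκ.le
    linarith
  · show ((M * A.card : ℕ) : ℝ) * b ^ ((1 : ℝ) / ((k : ℝ) + 1)) ≤ 1
    have h1 : b ^ ((1 : ℝ) / ((k : ℝ) + 1)) ≤ q ^ ((1 : ℝ) / ((k : ℝ) + 1)) :=
      Real.rpow_le_rpow hb0.le hb5 hk.le
    have h2 : q ^ ((1 : ℝ) / ((k : ℝ) + 1)) = 1 / ((M * A.card : ℕ) : ℝ) := by
      rw [hq]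
      have h3 : (1 : ℝ) / ((k : ℝ) + 1) = (((k + 1 : ℕ) : ℝ))⁻¹ := by
        push_cast
        rw [one_div]
      rw [h3]
      exact Real.pow_rpow_inv_natCast (by positivity) (by omega)
    calc ((M * A.card : ℕ) : ℝ) * b ^ ((1 : ℝ) / ((k : ℝ) + 1)) ≤
        ((M * A.card : ℕ) : ℝ) * (1 / ((M * A.card : ℕ) : ℝ)) := by
          rw [← h2]
          exact mul_le_mul_of_nonneg_left h1 hMA.le
      _ = 1 := by field_simp

theorem t_SEQ : S_SEQ := by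
  intro hCH m hm T κ hT hκ hκ1
  choose A r b h1 h2 h3 h4 h5 h6 h7 h8 h9 h10 h11 h12 using step hCH m hm T κ hT hκ
  have hnext : ∀ (k : ℕ) (p : St), 0 < b k p ∧ b k p ≤ 1 ∧ 1 ≤ p.1.2 * (A k p).card := by
    intro k p
    refine ⟨h1 k p, ?_, ?_⟩
    · have := h2 k p
      have := p.2.2.1
      linarith
    · exact Nat.mul_pos (by have := p.2.2.2; omega) (Finset.card_pos.2 (h3 k p))
  let st : ℕ → St := fun n => Nat.rec ⟨(1, 1), one_pos, le_refl _, le_refl _⟩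
    (fun k p => ⟨(b k p, p.1.2 * (A k p).card), hnext k p⟩) n
  have hst : ∀ k, st (k + 1) = ⟨(b k (st k), (st k).1.2 * (A k (st k)).card), hnext k (st k)⟩ :=
    fun k => rfl
  have hβ : ∀ k, (st (k + 1)).1.1 = b k (st k) := fun k => by rw [hst]
  have hM : ∀ k, (st (k + 1)).1.2 = (st k).1.2 * (A k (st k)).card := fun k => by rw [hst]
  have hprod : ∀ k, (∏ i ∈ Finset.range k, (A i (st i)).card) = (st k).1.2 := by
    intro k
    induction k with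
    | zero => rfl
    | succ k ih => rw [Finset.prod_range_succ, ih, hM]
  refine ⟨fun k => A k (st k), fun k => (st k).1.1, fun k => r k (st k), ?_⟩
  exact {
    hT := hT
    hk0 := hκ
    hk1 := hκ1
    pos := fun k => (st k).2.1
    one := le_refl _
    dec := fun k => by
      show (st (k + 1)).1.1 ≤ _
      rw [hβ]; exact h2 k (st k)
    ne := fun k => h3 k (st k)
    box := fun k => h4 k (st k)
    sep := fun k => by
      show ∀ a ∈ A k (st k), ∀ b' ∈ A k (st k), a ≠ b' → ∀ t : ℝ, |t| ≤ T →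
        4 * (st (k + 1)).1.1 ≤ ‖a.1 - b'.1 + t • (a.2 - b'.2)‖
      rw [hβ]; exact h5 k (st k)
    sepv := fun k => by
      show ∀ a ∈ A k (st k), ∀ b' ∈ A k (st k), a ≠ b' → 8 * (st (k + 1)).1.1 ≤ κ * ‖a.2 - b'.2‖
      rw [hβ]; exact h6 k (st k)
    rpos := fun k => h7 k (st k)
    rle := fun k => h8 k (st k)
    rsep := fun k => h9 k (st k)
    rbeta := fun k => by
      show 8 * (st (k + 1)).1.1 ≤ _
      rw [hβ]; exact h10 k (st k)
    count := fun k => h11 k (st k)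
    small := fun k => by
      show ((∏ i ∈ Finset.range (k + 1), (A i (st i)).card : ℕ) : ℝ) *
        ((st (k + 1)).1.1) ^ ((1 : ℝ) / ((k : ℝ) + 1)) ≤ 1
      rw [hprod, hM, hβ]
      exact h12 k (st k) }

end Pool.Agent.Y569.KS
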